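import Pool.Agent.Helper65.CKC.Bern
set_option autoImplicit false
open Complex MeasureTheory Metric Set
open scoped Real ComplexConjugate

/-!
# Project CKC: from the data of a certificate on an arc to its directions
-/

namespace Pool.Agent.Helper65.CKC

open Pool.Agent.Helper42.CKC (Vx DatC)
open Pool.Agent.Helper99.CKC
open Pool.Agent.Helper11.CKC (MqA mOk_arc FChk covB arcB)
open Pool.Agent.Helper20.EK7 (InL OutD)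
open Pool.Agent.Helper20.CK (ROk)
open Pool.Agent.Helper82.CKC (wu)
open Pool.Agent.Helper69.CK (MOk)
open Pool.Agent.Helper33.CKC (SecH)

/-- the null Lagrangian of the data -/
noncomputable def ND (D : DatC) (v0 v1 v2 : Vx) (τ s0 s1 s2 : ℝ) (x q : ℂ) (η : ℝ) : ℝ :=
  (NGs D.d τ D.G0 x q η + τ * NGs D.d τ D.G1 x q η +
    (s0 * NHms v0.HM x q η + s1 * NHms v1.HM x q η + s2 * NHms v2.HM x q η)) / D.M

def okN (D : DatC) (v0 v1 v2 : Vx) : Bool :=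
  and (and (okGs D.G0) (okGs D.G1))
    (and (v0.HM.all HmC.ok) (and (v1.HM.all HmC.ok) (v2.HM.all HmC.ok)))

theorem nullX_ND {D : DatC} {v0 v1 v2 : Vx} (h : okN D v0 v1 v2 = true) (τ s0 s1 s2 : ℝ) :
    NullX τ (ND D v0 v1 v2 τ s0 s1 s2) := by
  simp only [okN, Bool.and_eq_true] at h
  obtain ⟨⟨g0, g1⟩, h0, h1, h2⟩ := h
  have k := ((nullX_Gs D.d τ D.G0 g0).add ((nullX_Gs D.d τ D.G1 g1).const_mul τ)).add
    ((((nullX_Hms τ v0.HM h0).const_mul s0).add ((nullX_Hms τ v1.HM h1).const_mul s1)).add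
      ((nullX_Hms τ v2.HM h2).const_mul s2))
  refine (k.const_mul ((D.M : ℝ)⁻¹)).congr fun x q η => ?_
  unfold ND
  rw [div_eq_inv_mul]

/-- the inequality of the certificate in all directions of the arc -/
def PtArc (D : DatC) (v0 v1 v2 : Vx) (p0 p1 p2 q0 q1 q2 : ℝ) : Prop :=
  ∀ τ s0 s1 s2 : ℝ, 0 ≤ s0 → 0 ≤ s1 → 0 ≤ s2 → s0 + s1 + s2 = 1 →
    s0 * (v0.tn / v0.td) + s1 * (v1.tn / v1.td) + s2 * (v2.tn / v2.td) = τ →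
    s0 * (v0.sn / v0.td) + s1 * (v1.sn / v1.td) + s2 * (v2.sn / v2.td) = τ ^ 2 →
    ∃ (B : ℝ) (gam c a b a' b' : ℂ), 0 ≤ B ∧
      PtX τ (s0 * (v0.ka / D.M) + s1 * (v1.ka / D.M) + s2 * (v2.ka / D.M))
        (s0 * (v0.lam / D.M) + s1 * (v1.lam / D.M) + s2 * (v2.lam / D.M)) 0 0 B
        gam c a b a' b' p0 p1 p2 q0 q1 q2
        (MqA D.M D.MI0 D.MI1 D.MO0 D.MO1 p0 p1 p2 q0 q1 q2 τ) (ND D v0 v1 v2 τ s0 s1 s2)

/-- all checks except the multiplier -/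
def okA (D : DatC) (v0 v1 v2 : Vx) (kA kB kD : ℤ) : Bool :=
  and (and (okN D v0 v1 v2) (arcV v0 v1 v2))
    (and (and (decide (0 < D.M)) (decide (0 < kD)))
      (and (numV D.M kA kB kD v0) (and (numV D.M kA kB kD v1) (numV D.M kA kB kD v2))))

/-- **one direction of the arc** -/
theorem dirX_arc {D : DatC} {v0 v1 v2 : Vx} {kA kB kD : ℤ} {p0 p1 p2 q0 q1 q2 : ℝ}
    (hok : okA D v0 v1 v2 kA kB kD = true) (hP : PtArc D v0 v1 v2 p0 p1 p2 q0 q1 q2) {τ : ℝ}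
    (h0 : (v0.tn : ℝ) / v0.td ≤ τ) (h1 : τ ≤ (v1.tn : ℝ) / v1.td)
    (hM : ∃ (Mb : ℝ) (M' : ℂ → ℂ) (Lm ε₀ : ℝ), Mb < 2 * ((kA : ℝ) / kD + kB / kD * τ ^ 2) ∧
      0 < ε₀ ∧ MOk (fun m => conj (ud τ) ^ 2 * ((1 + (τ : ℂ) * I) / 2) *
        MqA D.M D.MI0 D.MI1 D.MO0 D.MO1 p0 p1 p2 q0 q1 q2 τ (wu (ud τ) m)) M' Mb Lm ε₀) :
    DirX ((kA : ℝ) / kD + kB / kD * τ ^ 2) τ p0 p1 p2 q0 q1 q2 := by
  simp only [okA, Bool.and_eq_true, decide_eq_true_eq] at hok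
  obtain ⟨⟨hN, hV⟩, ⟨hM0, hD0⟩, g0, g1, g2⟩ := hok
  obtain ⟨s0, s1, s2, a0, a1, a2, e1, e2, e3⟩ := arcV_bern hV h0 h1
  obtain ⟨B, gam, c, a, b, a', b', hB, hX⟩ := hP τ s0 s1 s2 a0 a1 a2 e1 e2 e3
  obtain ⟨k0, k1, k2⟩ := num_arc g0 g1 g2 hM0 hD0 a0 a1 a2 e1 e3
  obtain ⟨Mb, M', Lm, ε₀, hMb, hε, hMO⟩ := hM
  exact ⟨_, _, B, Mb, Lm, ε₀, gam, c, a, b, a', b', _, M', _, hB, k0, k1, k2, hMb, hε,
    nullX_ND hN τ s0 s1 s2, hMO, hX⟩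

/-- **the arc `0 ≤ τ ≤ Tn / Td`** -/
theorem secH_arc {D : DatC} {v0 v1 v2 : Vx} {kA kB kD : ℤ} {p0 p1 p2 q0 q1 q2 : ℝ}
    (hp : InL p0 p1 p2) (hq : OutD q0 q1 q2) {r r0 r1 r2 s s0 s1 s2 : ℤ}
    (hr : ROk r r0 r1 r2 p0 p1 p2) (hr' : ROk s s0 s1 s2 q0 q1 q2)
    (hok : okA D v0 v1 v2 kA kB kD = true) (hP : PtArc D v0 v1 v2 p0 p1 p2 q0 q1 q2)
    (hz : v0.tn = 0) (hk : 0 < kD) (hA : kD ≤ kA) (hB : 0 ≤ kB) {cs : List FChk} (hne : cs ≠ [])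
    (hcov : covB v1.tn v1.td 0 1 cs = true)
    (harc : arcB D.M D.MI0 D.MI1 D.MO0 D.MO1 r r0 r1 r2 s s0 s1 s2 kA kB kD cs = true)
    (hbox : ∀ c ∈ cs, c.okI = true ∧ c.okO = true) :
    SecH ((kA : ℝ) / kD) ((kB : ℝ) / kD) ((v1.tn : ℝ) / v1.td) := by
  have hV : arcV v0 v1 v2 = true := by
    simp only [okA, Bool.and_eq_true] at hok
    exact hok.1.2
  have hd := (arcV_td hV).2.1
  have hd0 : (0:ℝ) < v1.td := by exact_mod_cast hd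
  have hk0 : (0:ℝ) < kD := by exact_mod_cast hk
  have hA0 : (kD : ℝ) ≤ kA := by exact_mod_cast hA
  have hB0 : (0:ℝ) ≤ kB := by exact_mod_cast hB
  refine secH_of_DirX (p0 := p0) (p1 := p1) (p2 := p2) (q0 := q0) (q1 := q1) (q2 := q2)
    ((one_le_div hk0).2 hA0) (div_nonneg hB0 hk0.le) hp hq fun τ h0 h1 => ?_
  refine dirX_arc hok hP (by rw [hz]; simpa using h0) h1 ?_
  exact mOk_arc hp hq hr hr' hne hd hB hk hcov harc hbox h0 ((le_div_iff₀ hd0).1 h1)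

end Pool.Agent.Helper65.CKC
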