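import Pool.Agent.Helper65.CKC.Sec
import Pool.Agent.Helper11.CKC.FastU
import Pool.Agent.Helper42.CKC.Dat
set_option autoImplicit false
open Complex MeasureTheory Metric Set
open scoped Real ComplexConjugate

/-!
# Project CKC: the weights of the three vertices of an arc, and the numbers
-/

namespace Pool.Agent.Helper65.CKC

open Pool.Agent.Helper42.CKC (Vx DatC)
open Pool.Agent.Helper99.CKC

/-- the weights: (α, α²), (β, β²), ((α + β)/2, α β) span the arc (τ, τ²), τ in [α, β] -/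
theorem bern {α β τ : ℝ} (h : α < β) (h0 : α ≤ τ) (h1 : τ ≤ β) :
    ∃ s0 s1 s2 : ℝ, 0 ≤ s0 ∧ 0 ≤ s1 ∧ 0 ≤ s2 ∧ s0 + s1 + s2 = 1 ∧
      s0 * α + s1 * β + s2 * ((α + β) / 2) = τ ∧
      s0 * α ^ 2 + s1 * β ^ 2 + s2 * (α * β) = τ ^ 2 := by
  have hd : 0 < β - α := sub_pos.2 h
  obtain ⟨x, hx⟩ : ∃ x : ℝ, x = (τ - α) / (β - α) := ⟨_, rfl⟩
  have hx0 : 0 ≤ x := by
    rw [hx]
    exact div_nonneg (by linarith) hd.le
  have hx1 : x ≤ 1 := by
    rw [hx, div_le_one hd]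
    linarith
  have hτ : τ = α + (β - α) * x := by
    rw [hx]
    field_simp
    ring
  refine ⟨(1 - x) ^ 2, x ^ 2, 2 * (x * (1 - x)), sq_nonneg _, sq_nonneg _,
    mul_nonneg (by norm_num) (mul_nonneg hx0 (by linarith)), by ring, ?_, ?_⟩
  · rw [hτ]
    ring
  · rw [hτ]
    ring

/-- the three vertices of an arc -/
def arcV (v0 v1 v2 : Vx) : Bool :=
  and (and (and (decide (0 < v0.td)) (decide (0 < v1.td))) (decide (0 < v2.td)))
    (and (and (and (decide (v0.sn * v0.td = v0.tn ^ 2)) (decide (v1.sn * v1.td = v1.tn ^ 2)))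
      (and (decide (2 * v2.tn * (v0.td * v1.td) = v2.td * (v0.tn * v1.td + v1.tn * v0.td)))
        (decide (v2.sn * (v0.td * v1.td) = v0.tn * v1.tn * v2.td))))
      (decide (v0.tn * v1.td < v1.tn * v0.td)))

theorem arcV_td {v0 v1 v2 : Vx} (h : arcV v0 v1 v2 = true) :
    0 < v0.td ∧ 0 < v1.td ∧ 0 < v2.td := by
  simp only [arcV, Bool.and_eq_true, decide_eq_true_eq] at h
  exact ⟨h.1.1.1, h.1.1.2, h.1.2⟩

/-- **the weights of a direction of the arc** -/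
theorem arcV_bern {v0 v1 v2 : Vx} (h : arcV v0 v1 v2 = true) {τ : ℝ}
    (h0 : (v0.tn : ℝ) / v0.td ≤ τ) (h1 : τ ≤ (v1.tn : ℝ) / v1.td) :
    ∃ s0 s1 s2 : ℝ, 0 ≤ s0 ∧ 0 ≤ s1 ∧ 0 ≤ s2 ∧ s0 + s1 + s2 = 1 ∧
      s0 * (v0.tn / v0.td) + s1 * (v1.tn / v1.td) + s2 * (v2.tn / v2.td) = τ ∧
      s0 * (v0.sn / v0.td) + s1 * (v1.sn / v1.td) + s2 * (v2.sn / v2.td) = τ ^ 2 := by
  obtain ⟨k0, k1, k2⟩ := arcV_td h
  simp only [arcV, Bool.and_eq_true, decide_eq_true_eq] at h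
  obtain ⟨-, ⟨⟨a0, a1⟩, a2, a3⟩, a4⟩ := h
  have d0 : (0:ℝ) < v0.td := by exact_mod_cast k0
  have d1 : (0:ℝ) < v1.td := by exact_mod_cast k1
  have d2 : (0:ℝ) < v2.td := by exact_mod_cast k2
  have b0 : (v0.sn : ℝ) * v0.td = v0.tn ^ 2 := by exact_mod_cast a0
  have b1 : (v1.sn : ℝ) * v1.td = v1.tn ^ 2 := by exact_mod_cast a1
  have b2 : 2 * (v2.tn : ℝ) * (v0.td * v1.td) = v2.td * (v0.tn * v1.td + v1.tn * v0.td) := by
    exact_mod_cast a2
  have b3 : (v2.sn : ℝ) * (v0.td * v1.td) = v0.tn * v1.tn * v2.td := by exact_mod_cast a3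
  have b4 : (v0.tn : ℝ) * v1.td < v1.tn * v0.td := by exact_mod_cast a4
  have hlt : (v0.tn : ℝ) / v0.td < v1.tn / v1.td := by
    rw [div_lt_div_iff₀ d0 d1]
    exact b4
  obtain ⟨s0, s1, s2, p0, p1, p2, e1, e2, e3⟩ := bern hlt h0 h1
  have c0 : (v0.sn : ℝ) / v0.td = ((v0.tn : ℝ) / v0.td) ^ 2 := by
    rw [div_pow, div_eq_div_iff d0.ne' (by positivity), ← b0]
    ring
  have c1 : (v1.sn : ℝ) / v1.td = ((v1.tn : ℝ) / v1.td) ^ 2 := by
    rw [div_pow, div_eq_div_iff d1.ne' (by positivity), ← b1]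
    ring
  have c2 : (v2.tn : ℝ) / v2.td = ((v0.tn : ℝ) / v0.td + v1.tn / v1.td) / 2 := by
    field_simp
    linarith
  have c3 : (v2.sn : ℝ) / v2.td = (v0.tn : ℝ) / v0.td * (v1.tn / v1.td) := by
    field_simp
    linarith
  exact ⟨s0, s1, s2, p0, p1, p2, e1, by rw [c2, e2], by rw [c0, c1, c3, e3]⟩

/-- the number of a vertex: `0 ≤ lam ≤ ka`, `ka/M < 2 (kA + kB sn/td)/kD` -/
def numV (M kA kB kD : ℤ) (v : Vx) : Bool :=
  and (and (decide (0 < v.td)) (and (decide (0 ≤ v.lam)) (decide (v.lam ≤ v.ka))))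
    (decide (v.ka * (kD * v.td) < 2 * M * (kA * v.td + kB * v.sn)))

theorem numV_lt {M kA kB kD : ℤ} {v : Vx} (h : numV M kA kB kD v = true) (hM : 0 < M)
    (hD : 0 < kD) : (0:ℝ) ≤ v.lam / M ∧ (v.lam : ℝ) / M ≤ v.ka / M ∧
      (v.ka : ℝ) / M < 2 * (kA / kD + kB / kD * (v.sn / v.td)) := by
  simp only [numV, Bool.and_eq_true, decide_eq_true_eq] at h
  obtain ⟨⟨h0, h1, h2⟩, h3⟩ := h
  have d : (0:ℝ) < v.td := by exact_mod_cast h0
  have m : (0:ℝ) < M := by exact_mod_cast hM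
  have k : (0:ℝ) < kD := by exact_mod_cast hD
  have l0 : (0:ℝ) ≤ v.lam := by exact_mod_cast h1
  have l1 : (v.lam : ℝ) ≤ v.ka := by exact_mod_cast h2
  have l3 : (v.ka : ℝ) * (kD * v.td) < 2 * M * (kA * v.td + kB * v.sn) := by exact_mod_cast h3
  refine ⟨div_nonneg l0 m.le, div_le_div_of_nonneg_right l1 m.le, ?_⟩
  rw [div_lt_iff₀ m]
  have e : 2 * ((kA : ℝ) / kD + kB / kD * (v.sn / v.td)) * M =
      (2 * M * (kA * v.td + kB * v.sn)) / (kD * v.td) := by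
    field_simp
  rw [e, lt_div_iff₀ (by positivity)]
  exact l3

/-- the numbers of a direction of the arc -/
theorem num_arc {M kA kB kD : ℤ} {v0 v1 v2 : Vx} (g0 : numV M kA kB kD v0 = true)
    (g1 : numV M kA kB kD v1 = true) (g2 : numV M kA kB kD v2 = true) (hM : 0 < M)
    (hD : 0 < kD) {s0 s1 s2 τ : ℝ} (p0 : 0 ≤ s0) (p1 : 0 ≤ s1) (p2 : 0 ≤ s2)
    (hs : s0 + s1 + s2 = 1)
    (hτ : s0 * (v0.sn / v0.td) + s1 * (v1.sn / v1.td) + s2 * (v2.sn / v2.td) = τ ^ 2) :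
    0 ≤ s0 * (v0.lam / M) + s1 * (v1.lam / M) + s2 * (v2.lam / M) ∧
    s0 * ((v0.lam : ℝ) / M) + s1 * (v1.lam / M) + s2 * (v2.lam / M) ≤
      s0 * (v0.ka / M) + s1 * (v1.ka / M) + s2 * (v2.ka / M) ∧
    s0 * ((v0.ka : ℝ) / M) + s1 * (v1.ka / M) + s2 * (v2.ka / M) <
      2 * (kA / kD + kB / kD * τ ^ 2) := by
  obtain ⟨a0, a1, a2⟩ := numV_lt g0 hM hD
  obtain ⟨b0, b1, b2⟩ := numV_lt g1 hM hD
  obtain ⟨c0, c1, c2⟩ := numV_lt g2 hM hD
  refine ⟨by positivity, ?_, ?_⟩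
  · exact add_le_add (add_le_add (mul_le_mul_of_nonneg_left a1 p0)
      (mul_le_mul_of_nonneg_left b1 p1)) (mul_le_mul_of_nonneg_left c1 p2)
  · rw [← hτ]
    generalize (v0.ka : ℝ) / M = A0 at *
    generalize (v1.ka : ℝ) / M = A1 at *
    generalize (v2.ka : ℝ) / M = A2 at *
    generalize (v0.sn : ℝ) / v0.td = S0 at *
    generalize (v1.sn : ℝ) / v1.td = S1 at *
    generalize (v2.sn : ℝ) / v2.td = S2 at *
    generalize (kA : ℝ) / kD = K at *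
    generalize (kB : ℝ) / kD = L at *
    have e0 : 0 ≤ s0 * (2 * (K + L * S0) - A0) := mul_nonneg p0 (by linarith)
    have e1 : 0 ≤ s1 * (2 * (K + L * S1) - A1) := mul_nonneg p1 (by linarith)
    have e2 : 0 ≤ s2 * (2 * (K + L * S2) - A2) := mul_nonneg p2 (by linarith)
    have e3 : 2 * (K + L * (s0 * S0 + s1 * S1 + s2 * S2)) - (s0 * A0 + s1 * A1 + s2 * A2) =
        s0 * (2 * (K + L * S0) - A0) + s1 * (2 * (K + L * S1) - A1) +
        s2 * (2 * (K + L * S2) - A2) := by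
      linear_combination - 2 * K * hs
    by_contra hcon
    have e4 : s0 * (2 * (K + L * S0) - A0) + s1 * (2 * (K + L * S1) - A1) +
        s2 * (2 * (K + L * S2) - A2) ≤ 0 := by
      rw [← e3]
      linarith [not_lt.1 hcon]
    have z0 : s0 = 0 := by
      have : s0 * (2 * (K + L * S0) - A0) = 0 := by linarith
      rcases mul_eq_zero.1 this with h | h
      · exact h
      · linarith
    have z1 : s1 = 0 := by
      have : s1 * (2 * (K + L * S1) - A1) = 0 := by linarith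
      rcases mul_eq_zero.1 this with h | h
      · exact h
      · linarith
    have z2 : s2 = 0 := by
      have : s2 * (2 * (K + L * S2) - A2) = 0 := by linarith
      rcases mul_eq_zero.1 this with h | h
      · exact h
      · linarith
    rw [z0, z1, z2] at hs
    norm_num at hs

end Pool.Agent.Helper65.CKC
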