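import Pool.Agent.Helper99.CKC.Point
import Pool.Agent.Helper33.CKC.Final
set_option autoImplicit false
open Complex MeasureTheory Metric Set
open scoped Real ComplexConjugate

/-!
# Project CKC: a sector from the inequalities of the certificate in its directions
-/

namespace Pool.Agent.Helper65.CKC

open Pool.Agent.Helper99.CKC
open Pool.Agent.Helper82.CKC (wu)
open Pool.Agent.Helper69.CK (MOk)
open Pool.Agent.Helper20.EK7 (InL OutD)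
open Pool.Agent.Helper33.CKC (SecH)

/-- the data of one direction, without excess -/
structure DirX (κ τ p0 p1 p2 q0 q1 q2 : ℝ) : Prop where
  ex : ∃ (k₂ lam B Mb Lm ε₀ : ℝ) (gam c a b a' b' : ℂ) (F M' : ℂ → ℂ) (N : ℂ → ℂ → ℝ → ℝ),
    0 ≤ B ∧ 0 ≤ lam ∧ lam ≤ k₂ ∧ k₂ < 2 * κ ∧ Mb < 2 * κ ∧ 0 < ε₀ ∧ NullX τ N ∧
    MOk (fun m => conj (ud τ) ^ 2 * ((1 + (τ : ℂ) * I) / 2) * F (wu (ud τ) m)) M' Mb Lm ε₀ ∧
    PtX τ k₂ lam 0 0 B gam c a b a' b' p0 p1 p2 q0 q1 q2 F N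

/-- **one direction** -/
theorem DirX.sig {κ τ p0 p1 p2 q0 q1 q2 : ℝ} (h : DirX κ τ p0 p1 p2 q0 q1 q2) (hκ : 1 ≤ κ)
    (hp : InL p0 p1 p2) (hq : OutD q0 q1 q2) {t : ℂ} (ht : κ ≤ ‖t‖)
    (htu : t = -((‖t‖ : ℂ) * conj (ud τ))) {e : ℝ} (he : 0 < e) :
    Pool.Agent.Helper58.CKC.SigC t (‖t‖ - 1 + e) := by
  obtain ⟨k₂, lam, B, Mb, Lm, ε₀, gam, c, a, b, a', b', F, M', N, hB, hlam, hk, hk2, hMb, hε, hN,
    hM, hX⟩ := h.ex
  have h1 := sigC_of_X (dl := 0) hκ hB hlam hk le_rfl hk2 hMb hp hq hε hM hN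
    (by rw [zero_div]; exact hX) ht htu he
  rwa [add_zero] at h1

/-- **a sector** -/
theorem secH_of_DirX {a b T p0 p1 p2 q0 q1 q2 : ℝ} (ha : 1 ≤ a) (hb : 0 ≤ b)
    (hp : InL p0 p1 p2) (hq : OutD q0 q1 q2)
    (H : ∀ τ : ℝ, 0 ≤ τ → τ ≤ T → DirX (a + b * τ ^ 2) τ p0 p1 p2 q0 q1 q2) : SecH a b T := by
  intro τ h0 h1 t ht htu e he
  have hb2 : 0 ≤ b * τ ^ 2 := mul_nonneg hb (sq_nonneg _)
  refine (H τ h0 h1).sig (by linarith) hp hq ht ?_ he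
  unfold ud
  rw [mul_comm I (τ : ℂ)]
  exact htu

end Pool.Agent.Helper65.CKC
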