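import Pool.Agent.Helper65.CKC.DatS
set_option autoImplicit false
open Complex MeasureTheory Metric Set
open scoped Real ComplexConjugate

/-!
# Project CKC: arcs `T₀ ≤ τ ≤ T₁` of directions
-/

namespace Pool.Agent.Helper65.CKC

open Pool.Agent.Helper42.CKC (Vx DatC)
open Pool.Agent.Helper99.CKC
open Pool.Agent.Helper11.CKC (MqA mOk_F FChk covB covB_sound arcB arcB_mem numB numB_lt uT)
open Pool.Agent.Helper20.EK7 (InL OutL OutD)
open Pool.Agent.Helper20.CK (ROk)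
open Pool.Agent.Helper82.CKC (wu)
open Pool.Agent.Helper69.CK (MOk)
open Pool.Agent.Helper33.CKC (SecH Low low SigC.conj)
open Pool.Agent.Helper58.CKC (SigC)

/-- the hypothesis for an arc: `τ = tan (φ / 2)`, `u = e^(iφ) = (1 + i τ) / (1 - i τ)` -/
def SecI (a b T₀ T₁ : ℝ) : Prop :=
  ∀ ta : ℝ, T₀ ≤ ta → ta ≤ T₁ → ∀ t : ℂ, a + b * ta ^ 2 ≤ ‖t‖ →
    t = -((‖t‖ : ℂ) * conj ((1 + ta * I) / (1 - ta * I))) →
    ∀ e : ℝ, 0 < e → SigC t (‖t‖ - 1 + e)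

/-- **an arc** -/
theorem secI_of_DirX {a b T₀ T₁ p0 p1 p2 q0 q1 q2 : ℝ} (ha : 1 ≤ a) (hb : 0 ≤ b)
    (hp : InL p0 p1 p2) (hq : OutD q0 q1 q2)
    (H : ∀ τ : ℝ, T₀ ≤ τ → τ ≤ T₁ → DirX (a + b * τ ^ 2) τ p0 p1 p2 q0 q1 q2) :
    SecI a b T₀ T₁ := by
  intro τ h0 h1 t ht htu e he
  have hb2 : 0 ≤ b * τ ^ 2 := mul_nonneg hb (sq_nonneg _)
  refine (H τ h0 h1).sig (by linarith) hp hq ht ?_ he
  unfold ud
  rw [mul_comm I (τ : ℂ)]
  exact htu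

/-- the cells cover `[An/Ad, Tn/Td]` -/
theorem cov_arc {An Ad Tn Td : ℤ} (hAd : 0 < Ad) (hTd : 0 < Td) {τ : ℝ} (h0 : (An : ℝ) ≤ τ * Ad)
    (hτ : τ * Td ≤ Tn) {cs : List FChk} (h : covB Tn Td An Ad cs = true) (hne : cs ≠ [])
    (had : ∀ c ∈ cs, 0 < c.ad) :
    ∃ c ∈ cs, (c.an : ℝ) ≤ c.ad * τ ∧ (c.ad : ℝ) * τ ≤ c.bn := by
  cases cs with
  | nil => exact absurd rfl hne
  | cons c cs =>
    simp only [covB, Bool.and_eq_true, decide_eq_true_eq] at h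
    obtain ⟨h1, h2⟩ := h
    have hc := had c List.mem_cons_self
    have hc0 : (0:ℝ) < c.ad := by exact_mod_cast hc
    have hA0 : (0:ℝ) < Ad := by exact_mod_cast hAd
    by_cases hb : (c.ad : ℝ) * τ ≤ c.bn
    · refine ⟨c, List.mem_cons_self, ?_, hb⟩
      have h3 : (c.an : ℝ) * Ad ≤ An * c.ad := by exact_mod_cast h1
      have h4 : (An : ℝ) * c.ad ≤ τ * Ad * c.ad := mul_le_mul_of_nonneg_right h0 hc0.le
      have h5 : (c.an : ℝ) * Ad ≤ c.ad * τ * Ad := by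
        calc (c.an : ℝ) * Ad ≤ τ * Ad * c.ad := h3.trans h4
          _ = c.ad * τ * Ad := by ring
      exact le_of_mul_le_mul_right h5 hA0
    · obtain ⟨d, hd, hd2⟩ := covB_sound hTd hτ cs c.bn c.ad h2 hc
        (fun e he => had e (List.mem_cons_of_mem _ he)) (not_le.1 hb)
      exact ⟨d, List.mem_cons_of_mem _ hd, hd2⟩

/-- **the multiplier of every direction of the arc `An/Ad ≤ τ ≤ Tn/Td`** -/
theorem mOk_arcI {p0 p1 p2 q0 q1 q2 : ℝ} (hp : InL p0 p1 p2) (hq : OutD q0 q1 q2)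
    {M : ℤ} {I0 I1 O0 O1 : Pool.Agent.Helper11.CKC.CL}
    {r r0 r1 r2 s s0 s1 s2 kA kB kD An Ad Tn Td : ℤ}
    (hr : ROk r r0 r1 r2 p0 p1 p2) (hr' : ROk s s0 s1 s2 q0 q1 q2) {cs : List FChk}
    (hne : cs ≠ []) (hAd : 0 < Ad) (hTd : 0 < Td) (hkB : 0 ≤ kB) (hkD : 0 < kD)
    (hcov : covB Tn Td An Ad cs = true)
    (harc : arcB M I0 I1 O0 O1 r r0 r1 r2 s s0 s1 s2 kA kB kD cs = true)
    (hbox : ∀ c ∈ cs, c.okI = true ∧ c.okO = true) {τ : ℝ} (h0 : (An : ℝ) ≤ τ * Ad)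
    (hτ : τ * Td ≤ Tn) :
    ∃ (Mb : ℝ) (M' : ℂ → ℂ) (Lm ε₀ : ℝ), Mb < 2 * ((kA : ℝ) / kD + kB / kD * τ ^ 2) ∧
      0 < ε₀ ∧ MOk (fun m => conj (ud τ) ^ 2 * ((1 + (τ : ℂ) * I) / 2) *
        MqA M I0 I1 O0 O1 p0 p1 p2 q0 q1 q2 τ (wu (ud τ) m)) M' Mb Lm ε₀ := by
  obtain ⟨c, hc, ha, hb⟩ := cov_arc hAd hTd h0 hτ hcov hne fun c hc => by
    have h1 := (arcB_mem harc hc).2.1
    simp only [numB, Bool.and_eq_true, decide_eq_true_eq] at h1
    exact h1.1.2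
  obtain ⟨h1, h2, ⟨a1, a2, a3, a4⟩, b1, b2, b3, b4⟩ := arcB_mem harc hc
  have hlt := numB_lt h2 hkB hkD ha hb
  obtain ⟨Mb, hM1, hM2⟩ := exists_between hlt
  obtain ⟨k, hk, hl⟩ := hp.low
  have h3 : OutL (q1 + q2) q0 q1 q2 := ⟨rfl, hq.pos, hq.pos'⟩
  obtain ⟨k', hk', hl'⟩ := h3.low
  obtain ⟨M', L', ε, hε, hMO⟩ := mOk_F (I0 := I0) (I1 := I1) (O0 := O0) (O1 := O1) (M := M)
    hk (fun w hw => le_trans (by nlinarith [sq_nonneg ‖w‖]) (hl w hw)) hk'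
    (fun w => le_trans (by nlinarith [sq_nonneg ‖w‖]) (hl' w)) c
    (by rw [a1, a2, a3, a4]; exact hr) (by rw [b1, b2, b3, b4]; exact hr') h1 (hbox c hc).1
    (hbox c hc).2 ha hb hM1
  refine ⟨Mb, M', L', ε, hM2, hε, ?_⟩
  have e : uT τ = ud τ := by
    unfold uT ud
    rw [mul_comm (τ : ℂ) I]
  rw [e] at hMO
  exact hMO

/-- **the arc from the data** -/
theorem secI_arc {D : DatC} {v0 v1 v2 : Vx} {kA kB kD : ℤ} {p0 p1 p2 q0 q1 q2 : ℝ}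
    (hp : InL p0 p1 p2) (hq : OutD q0 q1 q2) {r r0 r1 r2 s s0 s1 s2 : ℤ}
    (hr : ROk r r0 r1 r2 p0 p1 p2) (hr' : ROk s s0 s1 s2 q0 q1 q2)
    (hok : okA D v0 v1 v2 kA kB kD = true) (hP : PtArc D v0 v1 v2 p0 p1 p2 q0 q1 q2)
    (hk : 0 < kD) (hA : kD ≤ kA) (hB : 0 ≤ kB) {cs : List FChk} (hne : cs ≠ [])
    (hcov : covB v1.tn v1.td v0.tn v0.td cs = true)
    (harc : arcB D.M D.MI0 D.MI1 D.MO0 D.MO1 r r0 r1 r2 s s0 s1 s2 kA kB kD cs = true)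
    (hbox : ∀ c ∈ cs, c.okI = true ∧ c.okO = true) :
    SecI ((kA : ℝ) / kD) ((kB : ℝ) / kD) ((v0.tn : ℝ) / v0.td) ((v1.tn : ℝ) / v1.td) := by
  have hV : arcV v0 v1 v2 = true := by
    simp only [okA, Bool.and_eq_true] at hok
    exact hok.1.2
  obtain ⟨hd', hd, -⟩ := arcV_td hV
  have hd0 : (0:ℝ) < v1.td := by exact_mod_cast hd
  have hd0' : (0:ℝ) < v0.td := by exact_mod_cast hd'
  have hk0 : (0:ℝ) < kD := by exact_mod_cast hk
  have hA0 : (kD : ℝ) ≤ kA := by exact_mod_cast hA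
  have hB0 : (0:ℝ) ≤ kB := by exact_mod_cast hB
  refine secI_of_DirX (p0 := p0) (p1 := p1) (p2 := p2) (q0 := q0) (q1 := q1) (q2 := q2)
    ((one_le_div hk0).2 hA0) (div_nonneg hB0 hk0.le) hp hq fun τ h0 h1 => ?_
  refine dirX_arc hok hP h0 h1 ?_
  exact mOk_arcI hp hq hr hr' hne hd' hd hB hk hcov harc hbox ((div_le_iff₀ hd0').1 h0)
    ((le_div_iff₀ hd0).1 h1)

/-! ### the region of an arc -/

theorem SecI.mono {a b a' b' T₀ T₁ T₂ T₃ : ℝ} (h : SecI a b T₀ T₁) (ha : a ≤ a') (hb : b ≤ b')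
    (h0 : T₀ ≤ T₂) (h1 : T₃ ≤ T₁) : SecI a' b' T₂ T₃ := by
  intro ta k0 k1 t ht
  have h2 := mul_le_mul_of_nonneg_right hb (sq_nonneg ta)
  exact h ta (h0.trans k0) (k1.trans h1) t (by linarith)

theorem SecI.secH {a b T : ℝ} (h : SecI a b 0 T) : SecH a b T := h

theorem secI_union {a b T₀ T₁ T₂ : ℝ} (h : SecI a b T₀ T₁) (h' : SecI a b T₁ T₂) :
    SecI a b T₀ T₂ := by
  intro ta k0 k1
  rcases le_total ta T₁ with h1 | h1
  · exact h ta k0 h1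
  · exact h' ta h1 k1

/-- all directions of an arc and of its reflection -/
theorem arc_of {a b T₀ T₁ : ℝ} (hT : 0 ≤ T₁) (H : SecI a b T₀ T₁) :
    ∀ t : ℂ, t ≠ 0 → T₀ ^ 2 * (‖t‖ - t.re) ≤ ‖t‖ + t.re → ‖t‖ + t.re ≤ T₁ ^ 2 * (‖t‖ - t.re) →
      a * (‖t‖ - t.re) + b * (‖t‖ + t.re) ≤ ‖t‖ * (‖t‖ - t.re) →
      ∀ e : ℝ, 0 < e → SigC t (‖t‖ - 1 + e) := by
  have key : ∀ t : ℂ, t ≠ 0 → 0 ≤ t.im → T₀ ^ 2 * (‖t‖ - t.re) ≤ ‖t‖ + t.re →
      ‖t‖ + t.re ≤ T₁ ^ 2 * (‖t‖ - t.re) →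
      a * (‖t‖ - t.re) + b * (‖t‖ + t.re) ≤ ‖t‖ * (‖t‖ - t.re) →
      ∀ e : ℝ, 0 < e → SigC t (‖t‖ - 1 + e) := by
    intro t ht him h10 h1 h2
    have hn : 0 < ‖t‖ := norm_pos_iff.2 ht
    have hre : t.re ≤ ‖t‖ := Complex.re_le_norm t
    have hd : 0 < ‖t‖ - t.re := by
      rcases hre.lt_or_eq with h | h
      · linarith
      · rw [← h] at h1
        have : T₁ ^ 2 * (t.re - t.re) = 0 := by ring
        rw [this] at h1
        rw [← h] at hn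
        linarith
    have hsq : ‖t‖ ^ 2 = t.re ^ 2 + t.im ^ 2 := by
      rw [← Complex.normSq_eq_norm_sq, Complex.normSq_apply]
      ring
    obtain ⟨n, hn'⟩ : ∃ n, n = ‖t‖ := ⟨_, rfl⟩
    obtain ⟨d, hd'⟩ : ∃ d, d = n - t.re := ⟨_, rfl⟩
    rw [← hn'] at hn hd hsq h1 h10 h2
    rw [← hd'] at hd h1 h10 h2
    have hta0 : 0 ≤ t.im / d := div_nonneg him hd.le
    have hta2 : (t.im / d) ^ 2 = (n + t.re) / d := by
      rw [div_pow, div_eq_div_iff (by positivity) hd.ne']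
      rw [hd'] at hd ⊢
      have : t.im ^ 2 = (n + t.re) * (n - t.re) := by nlinarith
      rw [this]
      ring
    have htaT : t.im / d ≤ T₁ := by
      refine abs_le_of_sq_le_sq' ?_ hT |>.2
      rw [hta2, div_le_iff₀ hd]
      exact h1
    have htaT0 : T₀ ≤ t.im / d := by
      refine abs_le_of_sq_le_sq' ?_ hta0 |>.2
      rw [hta2, le_div_iff₀ hd]
      exact h10
    refine H (t.im / d) htaT0 htaT t ?_ ?_
    · rw [hta2, ← hn']
      have e1 : a + b * ((n + t.re) / d) = (a * d + b * (n + t.re)) / d := by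
        field_simp
      rw [e1, div_le_iff₀ hd]
      exact h2
    · rw [← hn']
      have hne : (1 : ℂ) + ((t.im / d : ℝ) : ℂ) * I ≠ 0 := by
        intro h
        have := congrArg Complex.re h
        simp at this
      have e1 : conj ((1 + ((t.im / d : ℝ) : ℂ) * I) /
          (1 - ((t.im / d : ℝ) : ℂ) * I)) =
          (1 - ((t.im / d : ℝ) : ℂ) * I) / (1 + ((t.im / d : ℝ) : ℂ) * I) := by
        rw [map_div₀, map_add, map_sub, map_one, map_mul, Complex.conj_ofReal, conj_I]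
        congr 1 <;> ring
      rw [e1, ← neg_mul, ← mul_div_assoc, eq_div_iff hne]
      have s1 : t.im = d * (t.im / d) := by
        field_simp
      have s2 : t.im * (t.im / d) = n + t.re := by
        have : t.im * (t.im / d) = d * (t.im / d) ^ 2 := by
          rw [div_pow]
          field_simp
        rw [this, hta2]
        field_simp
      obtain ⟨τ, hτ⟩ : ∃ τ, τ = t.im / d := ⟨_, rfl⟩
      rw [← hτ] at s1 s2 ⊢
      apply Complex.ext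
      · simp only [mul_re, mul_im, add_re, add_im, sub_re, sub_im, neg_re, neg_im, one_re, one_im,
          ofReal_re, ofReal_im, I_re, I_im]
        linarith
      · simp only [mul_re, mul_im, add_re, add_im, sub_re, sub_im, neg_re, neg_im, one_re, one_im,
          ofReal_re, ofReal_im, I_re, I_im]
        rw [hd'] at s1
        linarith
  intro t ht h10 h1 h2 e he
  rcases le_total 0 t.im with him | him
  · exact key t ht him h10 h1 h2 e he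
  · have hc : conj t ≠ 0 := by
      rw [Ne, map_eq_zero]
      exact ht
    have hn : ‖conj t‖ = ‖t‖ := RCLike.norm_conj t
    have h3 := key (conj t) hc (by rw [Complex.conj_im]; linarith)
      (by rw [hn, Complex.conj_re]; exact h10)
      (by rw [hn, Complex.conj_re]; exact h1) (by rw [hn, Complex.conj_re]; exact h2) e he
    rw [hn] at h3
    have h4 := SigC.conj h3
    rwa [Complex.conj_conj] at h4

/-- the region of an arc -/
def Arc (a b T₀ T₁ : ℝ) (t : ℂ) : Prop :=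
  T₀ ^ 2 * (‖t‖ - t.re) ≤ ‖t‖ + t.re ∧ ‖t‖ + t.re ≤ T₁ ^ 2 * (‖t‖ - t.re) ∧
    a * (‖t‖ - t.re) + b * (‖t‖ + t.re) ≤ ‖t‖ * (‖t‖ - t.re)

/-- **upper and lower bound in the region of an arc** -/
theorem arc_all {a b T₀ T₁ : ℝ} (ha : 1 < a) (hb : 0 ≤ b) (hT : 0 ≤ T₁)
    (H : SecI a b T₀ T₁) {t : ℂ} (ht : t ≠ 0) (h : Arc a b T₀ T₁ t) :
    (∀ e : ℝ, 0 < e → SigC t (‖t‖ - 1 + e)) ∧ Low t := by
  obtain ⟨h0, h1, h2⟩ := h
  refine ⟨arc_of hT H t ht h0 h1 h2, ?_⟩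
  have hn : 0 < ‖t‖ := norm_pos_iff.2 ht
  have hre : t.re ≤ ‖t‖ := Complex.re_le_norm t
  have hre2 : -‖t‖ ≤ t.re := (abs_le.1 (Complex.abs_re_le_norm t)).1
  have hlt : t.re < ‖t‖ := by
    rcases hre.lt_or_eq with h | h
    · exact h
    · exfalso
      have h3 : ‖t‖ - t.re = 0 := by linarith
      rw [h3, mul_zero] at h1
      linarith
  refine low ?_ hlt
  have hd : 0 < ‖t‖ - t.re := by linarith
  have hb' : 0 ≤ b * (‖t‖ + t.re) := mul_nonneg hb (by linarith)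
  have h3 : a * (‖t‖ - t.re) ≤ ‖t‖ * (‖t‖ - t.re) := by linarith
  have h4 := le_of_mul_le_mul_right h3 hd
  linarith

end Pool.Agent.Helper65.CKC
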